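import Pool.Agent.helper54.GR3.Spec

set_option autoImplicit false

open Complex Metric Set Filter Topology MeasureTheory
open MPS (om)
open PPS (pre TT fd)
open XPS (Df er dens tau)
open Pool.Agent.helper16.Multibrot

noncomputable section

namespace GR

theorem ARE : ARE_stmt := by
  intro ι s z r a ρ hr hd hin
  rcases s.eq_empty_or_nonempty with hs | ⟨j0, hj0⟩
  · rw [hs, Finset.sum_empty]
    exact sq_nonneg _
  have hρ : 0 < ρ := by
    have h1 := hin j0 hj0
    have h2 := hr j0 hj0
    have h3 := norm_nonneg (z j0 - a)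
    linarith
  have hdisj : (s : Set ι).PairwiseDisjoint (fun j => ball (z j) (r j)) := by
    intro i hi j hj hij
    apply ball_disjoint_ball
    rw [dist_eq_norm]
    exact hd i hi j hj hij
  have h1 : volume (⋃ j ∈ s, ball (z j) (r j)) = ∑ j ∈ s, volume (ball (z j) (r j)) :=
    measure_biUnion_finset hdisj (fun _ _ => measurableSet_ball)
  have h2 : (⋃ j ∈ s, ball (z j) (r j)) ⊆ ball a ρ := by
    intro w hw
    rw [mem_iUnion₂] at hw
    obtain ⟨j, hj, hwj⟩ := hw
    rw [mem_ball, dist_eq_norm] at hwj ⊢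
    have h3 := hin j hj
    have h4 : ‖w - a‖ ≤ ‖w - z j‖ + ‖z j - a‖ := by
      have := norm_add_le (w - z j) (z j - a)
      rwa [sub_add_sub_cancel] at this
    linarith
  have h3 := measure_mono (μ := volume) h2
  rw [h1, Complex.volume_ball] at h3
  have h4 : ∀ j ∈ s, volume (ball (z j) (r j)) = ENNReal.ofReal (r j ^ 2 * Real.pi) := by
    intro j hj
    rw [Complex.volume_ball, ENNReal.ofReal_mul (sq_nonneg _), ENNReal.ofReal_pow (hr j hj).le]
    congr 1
    rw [← NNReal.coe_real_pi, ENNReal.ofReal_coe_nnreal]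
  rw [Finset.sum_congr rfl h4, ← ENNReal.ofReal_sum_of_nonneg (fun j _ => by positivity)] at h3
  have h5 : ENNReal.ofReal ρ ^ 2 * (NNReal.pi : ENNReal) = ENNReal.ofReal (ρ ^ 2 * Real.pi) := by
    rw [ENNReal.ofReal_mul (sq_nonneg _), ENNReal.ofReal_pow hρ.le]
    congr 1
    rw [← NNReal.coe_real_pi, ENNReal.ofReal_coe_nnreal]
  rw [h5, ENNReal.ofReal_le_ofReal_iff (by positivity), ← Finset.sum_mul] at h3
  exact le_of_mul_le_mul_right h3 Real.pi_pos

end GR
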